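import Pool.Agent.Y994.KW.Stm

/-!
# Project KW: the steps of the walker written out, and locality of the displacement
-/

set_option autoImplicit false

namespace Pool.Agent.Y37.KW

open Y994.KW

/-- the walker crosses the left side of the tile `(q,t)` to the left -/
def lf (q t : ℤ) : St := ((q, t), (q, t + 1))

/-- the walker crosses the left side of the tile `(q,t)` to the right -/
def rt (q t : ℤ) : St := ((q, t + 1), (q, t))

theorem ok_iff (s : St) : Ok s ↔ ∃ q t : ℤ, s = up q t ∨ s = dn q t ∨ s = lf q t ∨ s = rt q t :=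
  Iff.rfl

theorem nxt_up (σ : Cfg) (q t : ℤ) :
    nxt σ (up q t) = if σ q t = false then rt (q + 1) t else lf q t := by
  have h1 : tl (up q t) = (q, t) := by
    simp [tl, up, rot]
  unfold nxt
  rw [h1]
  by_cases h : σ q t = false <;> simp [h, up, rt, lf, rot]

theorem nxt_dn (σ : Cfg) (q t : ℤ) :
    nxt σ (dn q t) = if σ q (t - 1) = false then lf q (t - 1) else rt (q + 1) (t - 1) := by
  have h1 : tl (dn q t) = (q, t - 1) := by
    simp [tl, dn, rot]; ring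
  unfold nxt
  rw [h1]
  by_cases h : σ q (t - 1) = false <;> simp [h, dn, rt, lf, rot] <;> ring

theorem nxt_lf (σ : Cfg) (q t : ℤ) :
    nxt σ (lf q t) = if σ (q - 1) t = true then up (q - 1) (t + 1) else dn (q - 1) t := by
  have h1 : tl (lf q t) = (q - 1, t) := by
    simp [tl, lf, rot]; ring
  unfold nxt
  rw [h1]
  by_cases h : σ (q - 1) t = true <;> simp [h, lf, up, dn, rot] <;> ring

theorem nxt_rt (σ : Cfg) (q t : ℤ) :
    nxt σ (rt q t) = if σ q t = true then dn q t else up q (t + 1) := by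
  have h1 : tl (rt q t) = (q, t) := by
    simp [tl, rt, rot]
  unfold nxt
  rw [h1]
  by_cases h : σ q t = true <;> simp [h, rt, up, dn, rot]

theorem wk_up (n : ℕ) (a : ℤ) (σ : Cfg) (q t : ℤ) : wk n a σ (up q t) = nxt σ (up q t) := by
  unfold wk
  rw [if_neg]
  rintro ⟨-, -, h⟩
  simp only [up] at h
  omega

theorem wk_lf (n : ℕ) (a : ℤ) (σ : Cfg) (q t : ℤ) : wk n a σ (lf q t) = nxt σ (lf q t) := by
  unfold wk
  rw [if_neg]
  rintro ⟨-, -, h⟩
  simp only [lf] at h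
  omega

theorem wk_rt (n : ℕ) (a : ℤ) (σ : Cfg) (q t : ℤ) : wk n a σ (rt q t) = nxt σ (rt q t) := by
  unfold wk
  rw [if_neg]
  rintro ⟨-, -, h⟩
  simp only [rt] at h
  omega

theorem wk_dn (n : ℕ) (a : ℤ) (σ : Cfg) (q t : ℤ) (ht : t ≠ a) :
    wk n a σ (dn q t) = nxt σ (dn q t) := by
  unfold wk
  rw [if_neg]
  rintro ⟨h, -, -⟩
  simp only [dn] at h
  exact ht h

theorem wk_cap (n : ℕ) (a : ℤ) (σ : Cfg) (q : ℤ) :
    wk n a σ (dn q a) = if (q % (2 * n + 1)) % 2 = 0 then up (q + 1) a else up (q - 1) a := by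
  unfold wk
  rw [if_pos ⟨rfl, rfl, rfl⟩]
  change (if (q % (2 * n + 1)) % 2 = 0 then (((q + 1, a), (q + 2, a)) : St)
    else ((q + 1 - 2, a), (q, a))) = _
  by_cases h : (q % (2 * n + 1)) % 2 = 0
  · rw [if_pos h, if_pos h]
    simp only [up, Prod.mk.injEq, and_true, true_and]
    ring
  · rw [if_neg h, if_neg h]
    simp only [up, Prod.mk.injEq, and_true]
    constructor <;> ring

/-- vertical translation -/
def vs (h : ℤ) (s : St) : St := ((s.1.1, s.1.2 + h), (s.2.1, s.2.2 + h))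

theorem vs_up (h q t : ℤ) : vs h (up q t) = up q (t + h) := rfl
theorem vs_dn (h q t : ℤ) : vs h (dn q t) = dn q (t + h) := rfl
theorem vs_lf (h q t : ℤ) : vs h (lf q t) = lf q (t + h) := by
  simp [vs, lf]; ring
theorem vs_rt (h q t : ℤ) : vs h (rt q t) = rt q (t + h) := by
  simp [vs, rt]; ring

theorem vs_inj {h : ℤ} {s s' : St} (e : vs h s = vs h s') : s = s' := by
  simp only [vs, Prod.mk.injEq, add_left_inj] at e
  exact Prod.ext (Prod.ext e.1.1 e.1.2) (Prod.ext e.2.1 e.2.2)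

/-- a neighbouring state between two levels -/
def Bd (a b : ℤ) (s : St) : Prop :=
  ∃ q t : ℤ, (s = up q t ∧ a ≤ t ∧ t ≤ b) ∨ (s = dn q t ∧ a ≤ t ∧ t ≤ b) ∨
    (s = lf q t ∧ a ≤ t ∧ t + 1 ≤ b) ∨ (s = rt q t ∧ a ≤ t ∧ t + 1 ≤ b)

theorem bd_wk {n : ℕ} {a b : ℤ} {σ : Cfg} {s : St} (hs : Bd a b s) (hu : ∀ q, s ≠ up q b) :
    Bd a b (wk n a σ s) := by
  obtain ⟨q, t, ⟨rfl, h1, h2⟩ | ⟨rfl, h1, h2⟩ | ⟨rfl, h1, h2⟩ | ⟨rfl, h1, h2⟩⟩ := hs
  · have h3 : t ≠ b := by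
      rintro rfl
      exact hu q rfl
    rw [wk_up, nxt_up]
    split_ifs
    · exact ⟨_, _, Or.inr (Or.inr (Or.inr ⟨rfl, by omega, by omega⟩))⟩
    · exact ⟨_, _, Or.inr (Or.inr (Or.inl ⟨rfl, by omega, by omega⟩))⟩
  · rcases eq_or_ne t a with rfl | h3
    · rw [wk_cap]
      split_ifs
      · exact ⟨_, _, Or.inl ⟨rfl, by omega, by omega⟩⟩
      · exact ⟨_, _, Or.inl ⟨rfl, by omega, by omega⟩⟩
    · rw [wk_dn _ _ _ _ _ h3, nxt_dn]
      split_ifs
      · exact ⟨_, _, Or.inr (Or.inr (Or.inl ⟨rfl, by omega, by omega⟩))⟩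
      · exact ⟨_, _, Or.inr (Or.inr (Or.inr ⟨rfl, by omega, by omega⟩))⟩
  · rw [wk_lf, nxt_lf]
    split_ifs
    · exact ⟨_, _, Or.inl ⟨rfl, by omega, by omega⟩⟩
    · exact ⟨_, _, Or.inr (Or.inl ⟨rfl, by omega, by omega⟩)⟩
  · rw [wk_rt, nxt_rt]
    split_ifs
    · exact ⟨_, _, Or.inr (Or.inl ⟨rfl, by omega, by omega⟩)⟩
    · exact ⟨_, _, Or.inl ⟨rfl, by omega, by omega⟩⟩

theorem vs_wk {n : ℕ} {a b h : ℤ} {σ σ' : Cfg}
    (hσ : ∀ j t : ℤ, a ≤ t → t < b → σ' j (t + h) = σ j t)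
    {s : St} (hs : Bd a b s) (hu : ∀ q, s ≠ up q b) :
    wk n (a + h) σ' (vs h s) = vs h (wk n a σ s) := by
  obtain ⟨q, t, ⟨rfl, h1, h2⟩ | ⟨rfl, h1, h2⟩ | ⟨rfl, h1, h2⟩ | ⟨rfl, h1, h2⟩⟩ := hs
  · have h3 : t ≠ b := by
      rintro rfl
      exact hu q rfl
    rw [vs_up, wk_up, nxt_up, wk_up, nxt_up, hσ q t h1 (by omega)]
    split_ifs
    · rw [vs_rt]
    · rw [vs_lf]
  · rcases eq_or_ne t a with rfl | h3
    · rw [vs_dn, wk_cap, wk_cap]
      split_ifs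
      · rw [vs_up]
      · rw [vs_up]
    · rw [vs_dn, wk_dn _ _ _ _ _ (by omega), wk_dn _ _ _ _ _ h3, nxt_dn, nxt_dn,
        show t + h - 1 = t - 1 + h by ring, hσ q (t - 1) (by omega) (by omega)]
      split_ifs
      · rw [vs_lf]
      · rw [vs_rt]
  · rw [vs_lf, wk_lf, nxt_lf, wk_lf, nxt_lf, hσ (q - 1) t (by omega) (by omega)]
    split_ifs
    · rw [vs_up]; congr 1; ring
    · rw [vs_dn]
  · rw [vs_rt, wk_rt, nxt_rt, wk_rt, nxt_rt, hσ q t (by omega) (by omega)]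
    split_ifs
    · rw [vs_dn]
    · rw [vs_up]; congr 1; ring

theorem orb_zero (n : ℕ) (a : ℤ) (σ : Cfg) : orb n a σ 0 = up (2 * n) a := rfl

theorem orb_succ (n : ℕ) (a : ℤ) (σ : Cfg) (k : ℕ) :
    orb n a σ (k + 1) = wk n a σ (orb n a σ k) := by
  unfold orb
  rw [Function.iterate_succ_apply']

theorem bd_orb {n : ℕ} {a b : ℤ} {σ : Cfg} (hab : a ≤ b) (k : ℕ)
    (hk : ∀ k' : ℕ, k' < k → ∀ q : ℤ, orb n a σ k' ≠ up q b) : Bd a b (orb n a σ k) := by
  induction k with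
  | zero => exact ⟨2 * n, a, Or.inl ⟨rfl, le_rfl, hab⟩⟩
  | succ k ih =>
    rw [orb_succ]
    exact bd_wk (ih fun k' h => hk k' (by omega)) (hk k (by omega))

theorem orb_vs {n : ℕ} {a b h : ℤ} {σ σ' : Cfg} (hab : a ≤ b)
    (hσ : ∀ j t : ℤ, a ≤ t → t < b → σ' j (t + h) = σ j t) (k : ℕ)
    (hk : ∀ k' : ℕ, k' < k → ∀ q : ℤ, orb n a σ k' ≠ up q b) :
    orb n (a + h) σ' k = vs h (orb n a σ k) := by
  induction k with
  | zero => rfl
  | succ k ih =>
    rw [orb_succ, orb_succ, ih fun k' h => hk k' (by omega)]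
    exact vs_wk hσ (bd_orb hab k fun k' h => hk k' (by omega)) (hk k (by omega))

theorem hit_vs {n : ℕ} {a b h : ℤ} {σ σ' : Cfg} (hab : a ≤ b)
    (hσ : ∀ j t : ℤ, a ≤ t → t < b → σ' j (t + h) = σ j t) {i : ℕ} {X : ℤ}
    (H : Hit n a b σ i X) : Hit n (a + h) (b + h) σ' i X := by
  refine ⟨?_, ?_⟩
  · rw [orb_vs hab hσ i H.2, H.1, vs_up]
  · intro k hk q e
    rw [orb_vs hab hσ k (fun k' h' => H.2 k' (by omega)), ← vs_up] at e
    exact H.2 k hk q (vs_inj e)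

/-- the displacement between two levels depends on the rows between them -/
theorem loc : S_LOC := by
  intro n a b h σ σ' _ hab hσ
  have key : (fun X : ℤ => ∃ i : ℕ, Hit n (a + h) (b + h) σ' i X) =
      (fun X : ℤ => ∃ i : ℕ, Hit n a b σ i X) := by
    funext X
    apply propext
    constructor
    · rintro ⟨i, hi⟩
      refine ⟨i, ?_⟩
      have h1 := hit_vs (h := -h) (σ' := σ) (by omega) (fun j t h1 h2 => by
        have h3 := hσ j (t + -h) (by omega) (by omega)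
        rw [show t + -h + h = t by ring] at h3
        exact h3.symm) hi
      rw [show a + h + -h = a by ring, show b + h + -h = b by ring] at h1
      exact h1
    · rintro ⟨i, hi⟩
      exact ⟨i, hit_vs hab hσ hi⟩
  have h1 : ∀ (c d : ℤ) (τ : Cfg), dsp n c d τ =
      (fun p : ℤ → Prop => open Classical in if h : ∃ X : ℤ, p X then Classical.choose h else 0)
        (fun X : ℤ => ∃ i : ℕ, Hit n c d τ i X) := by
    intro c d τ
    rfl
  rw [h1, h1, key]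

theorem t_LOC : S_HIT → S_LOC := fun _ => loc

end Pool.Agent.Y37.KW
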