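import Pool.Agent.Y37.KW.Bas
import Pool.Agent.H906R3.K6.P1

/-!
# Project KW: the displacement of the walker is the one of `H906K`
-/

set_option autoImplicit false

namespace Pool.Agent.Y37.KW

open Y994.KW

theorem per_cfg (n M : ℕ) (c : Fin M → Fin (2 * n + 1) → Bool) : Per n (cfg n M c) := by
  intro j t
  unfold cfg
  split_ifs with h
  · have h1 := H906K.p1_add (2 * n) j
    push_cast at h1
    rw [h1]
  · rfl

theorem cfg_at {n M : ℕ} (c : Fin M → Fin (2 * n + 1) → Bool) (j : ℤ) (t : Fin M) :
    cfg n M c j ((t : ℕ) : ℤ) = c t (H906K.jx (2 * n) j) := by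
  unfold cfg
  have ht := t.2
  rw [dif_pos ⟨by omega, by omega⟩]
  congr 1

/-- the edge crossed by the walker -/
def edg (s : St) : H906K.Edg :=
  if s.1.2 = s.2.2 then H906K.Edg.v (min s.1.1 s.2.1) (s.1.2).toNat
  else H906K.Edg.h s.1.1 (min s.1.2 s.2.2).toNat

theorem edg_up (q : ℤ) (t : ℕ) : edg (up q t) = H906K.Edg.v q t := by
  simp [edg, up]

theorem edg_dn (q : ℤ) (t : ℕ) : edg (dn q t) = H906K.Edg.v q t := by
  simp [edg, dn]

theorem edg_lf (q : ℤ) (t : ℕ) : edg (lf q t) = H906K.Edg.h q t := by
  unfold edg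
  rw [if_neg (by simp only [lf]; omega)]
  simp [lf]

theorem edg_rt (q : ℤ) (t : ℕ) : edg (rt q t) = H906K.Edg.h q t := by
  unfold edg
  rw [if_neg (by simp only [rt]; omega)]
  simp [rt]

theorem xd (hinj : S_INJ) (hhit : S_HIT) : S_XD := by
  intro n M c hn
  obtain ⟨i, hi1, hi2⟩ := hhit n 0 M (cfg n M c) hn (per_cfg n M c) (by omega)
  -- the orbit stays in the class of the first edge
  have key : ∀ k : ℕ, k ≤ i → Relation.EqvGen (H906K.Link n M c) (H906K.Edg.v (2 * n) 0)
      (edg (orb n 0 (cfg n M c) k)) := by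
    intro k
    induction k with
    | zero =>
      intro _
      rw [orb_zero]
      have h1 := edg_up (2 * n) 0
      rw [show ((0 : ℕ) : ℤ) = 0 from rfl] at h1
      rw [h1]
      exact Relation.EqvGen.refl _
    | succ k ih =>
      intro hk
      refine Relation.EqvGen.trans _ _ _ (ih (by omega)) ?_
      have hb : Bd 0 M (orb n 0 (cfg n M c) k) :=
        bd_orb (by omega) k fun k' hk' => hi2 k' (by omega)
      have hu := hi2 k (by omega)
      have hI := (hinj n 0 (cfg n M c) hn (per_cfg n M c) 0 k)
      rw [orb_succ]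
      generalize hs : orb n 0 (cfg n M c) k = s at hb hu hI ⊢
      obtain ⟨q, t, ⟨rfl, h1, h2⟩ | ⟨rfl, h1, h2⟩ | ⟨rfl, h1, h2⟩ | ⟨rfl, h1, h2⟩⟩ := hb
      · have h3 : t ≠ M := by
          rintro rfl
          exact hu q rfl
        obtain ⟨t, rfl⟩ := Int.eq_ofNat_of_zero_le h1
        have ht : t < M := by omega
        have hc := cfg_at c q ⟨t, ht⟩
        change cfg n M c q (t : ℤ) = _ at hc
        rw [wk_up, nxt_up, hc]
        split_ifs with h4
        · rw [edg_up, edg_rt]
          exact Relation.EqvGen.rel _ _ (H906K.Link.br q ⟨t, ht⟩ h4)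
        · rw [edg_up, edg_lf]
          exact Relation.EqvGen.rel _ _ (H906K.Link.bl q ⟨t, ht⟩ (by simpa using h4))
      · rcases eq_or_ne t 0 with rfl | h3
        · rw [wk_cap]
          have hN : (0 : ℤ) < 2 * n + 1 := by omega
          have hm1 := Int.emod_nonneg q (show (2 * n + 1 : ℤ) ≠ 0 by omega)
          have hm2 := Int.emod_lt_of_pos q hN
          have hm3 := Int.emod_add_mul_ediv q (2 * n + 1)
          have hne : q % (2 * n + 1) ≠ 2 * n := by
            intro h4
            apply (hI (q / (2 * n + 1))).2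
            rw [orb_zero]
            simp only [dn, sh, rev, up, Prod.mk.injEq, and_true]
            constructor <;> linarith
          split_ifs with h5
          · obtain ⟨r, hr⟩ : ∃ r : ℕ, q % (2 * n + 1) = 2 * r :=
              ⟨(q % (2 * n + 1) / 2).toNat, by omega⟩
            have e1 := edg_dn q 0
            have e2 := edg_up (q + 1) 0
            rw [show ((0 : ℕ) : ℤ) = 0 from rfl] at e1 e2
            rw [e1, e2]
            have h6 := H906K.Link.bot (c := c) (q / (2 * n + 1)) r (by omega)
            have e3 : q / (2 * n + 1) * (2 * n + 1) + 2 * r = q := by linarith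
            rw [e3] at h6
            exact Relation.EqvGen.rel _ _ h6
          · obtain ⟨r, hr⟩ : ∃ r : ℕ, q % (2 * n + 1) = 2 * r + 1 :=
              ⟨(q % (2 * n + 1) / 2).toNat, by omega⟩
            have e1 := edg_dn q 0
            have e2 := edg_up (q - 1) 0
            rw [show ((0 : ℕ) : ℤ) = 0 from rfl] at e1 e2
            rw [e1, e2]
            have h6 := H906K.Link.bot (c := c) (q / (2 * n + 1)) r (by omega)
            have e3 : q / (2 * n + 1) * (2 * n + 1) + 2 * r = q - 1 := by linarith
            rw [e3, sub_add_cancel] at h6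
            exact Relation.EqvGen.symm _ _ (Relation.EqvGen.rel _ _ h6)
        · obtain ⟨t', ht'⟩ := Int.eq_ofNat_of_zero_le (show 0 ≤ t - 1 by omega)
          obtain rfl : t = ((t' + 1 : ℕ) : ℤ) := by push_cast; omega
          have ht : t' < M := by omega
          have hc := cfg_at c q ⟨t', ht⟩
          change cfg n M c q (t' : ℤ) = _ at hc
          rw [wk_dn _ _ _ _ _ h3, nxt_dn, ht', hc, edg_dn]
          split_ifs with h4
          · rw [edg_lf]
            exact Relation.EqvGen.symm _ _ (Relation.EqvGen.rel _ _ (H906K.Link.lt q ⟨t', ht⟩ h4))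
          · rw [edg_rt]
            exact Relation.EqvGen.symm _ _ (Relation.EqvGen.rel _ _
              (H906K.Link.rt q ⟨t', ht⟩ (by simpa using h4)))
      · obtain ⟨t, rfl⟩ := Int.eq_ofNat_of_zero_le h1
        have ht : t < M := by omega
        have hc := cfg_at c (q - 1) ⟨t, ht⟩
        change cfg n M c (q - 1) (t : ℤ) = _ at hc
        rw [wk_lf, nxt_lf, hc, edg_lf]
        split_ifs with h4
        · have e := edg_up (q - 1) (t + 1)
          rw [show ((t + 1 : ℕ) : ℤ) = (t : ℤ) + 1 by push_cast; ring] at e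
          rw [e]
          have h6 := H906K.Link.rt (q - 1) ⟨t, ht⟩ h4
          rw [sub_add_cancel] at h6
          exact Relation.EqvGen.rel _ _ h6
        · rw [edg_dn]
          have h6 := H906K.Link.br (q - 1) ⟨t, ht⟩ (by simpa using h4)
          rw [sub_add_cancel] at h6
          exact Relation.EqvGen.symm _ _ (Relation.EqvGen.rel _ _ h6)
      · obtain ⟨t, rfl⟩ := Int.eq_ofNat_of_zero_le h1
        have ht : t < M := by omega
        have hc := cfg_at c q ⟨t, ht⟩
        change cfg n M c q (t : ℤ) = _ at hc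
        rw [wk_rt, nxt_rt, hc, edg_rt]
        split_ifs with h4
        · rw [edg_dn]
          exact Relation.EqvGen.symm _ _ (Relation.EqvGen.rel _ _ (H906K.Link.bl q ⟨t, ht⟩ h4))
        · have e := edg_up q (t + 1)
          rw [show ((t + 1 : ℕ) : ℤ) = (t : ℤ) + 1 by push_cast; ring] at e
          rw [e]
          exact Relation.EqvGen.rel _ _ (H906K.Link.lt q ⟨t, ht⟩ (by simpa using h4))
  have hE : H906K.End n M c (X n M c) := by
    have h1 := key i le_rfl
    rw [hi1, edg_up] at h1
    exact h1
  have h2 : H906K.End n M c (H906K.Xd n M c) := Classical.epsilon_spec ⟨_, hE⟩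
  rw [(H906K.end_run n M c _).1 hE, (H906K.end_run n M c _).1 h2]

theorem t_XD (hinj : S_INJ) (hhit : S_HIT) (_ : S_VAL) : S_XD := xd hinj hhit

end Pool.Agent.Y37.KW
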